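import Pool.Agent.H629.CG.Stm

/-!
# Project CG (helper629), GFD: the finite dimensional Girsanov formula
-/

set_option autoImplicit false

namespace Pool.Agent.H32.CG.GFD

open MeasureTheory ProbabilityTheory Filter Topology Set
open scoped ENNReal NNReal
open Pool.Agent.H629.CG

theorem measurable_ex : Measurable ex := by
  unfold ex
  exact ENNReal.measurable_ofReal.comp Real.measurable_exp

theorem t_GFD : S_CM → S_KREP → S_GFD := by
  intro hCM hKREP n Ω _ P X X0 hG lam g hg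
  obtain ⟨A, hA, hlaw⟩ := hKREP (n + 1) Ω P
    (fun i ω => (Fin.cons (X0 ω) (fun j => X j ω) : Fin (n + 1) → ℝ) i) hG
  have hmeas : AEMeasurable (fun ω (i : Fin (n + 1)) =>
      (Fin.cons (X0 ω) (fun j => X j ω) : Fin (n + 1) → ℝ) i) P := hG.aemeasurable
  obtain ⟨mm, hmm⟩ : ∃ mm : Fin (n + 1) → ℝ, mm = fun i =>
    ∫ ω, (Fin.cons (X0 ω) (fun j => X j ω) : Fin (n + 1) → ℝ) i ∂P := ⟨_, rfl⟩
  have hm0 : ∫ ω', X0 ω' ∂P = mm 0 := by rw [hmm]; rfl
  have h00 : ∑ k, A 0 k * A 0 k = cov[X0, X0; P] := hA 0 0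
  have hi0 : ∀ i : Fin n, ∑ k, A i.succ k * A 0 k = cov[X i, X0; P] := fun i => hA i.succ 0
  have hlaw' : P.map (fun ω (i : Fin (n + 1)) =>
      (Fin.cons (X0 ω) (fun j => X j ω) : Fin (n + 1) → ℝ) i) =
      (gam (n + 1)).map (fun z (i : Fin (n + 1)) => mm i + ∑ k, A i k * z k) := by
    rw [hmm]
    exact hlaw
  have hT : Measurable (fun (z : Fin (n + 1) → ℝ) (i : Fin (n + 1)) =>
      mm i + ∑ k, A i k * z k) := by fun_prop
  have key : ∀ Φ : (Fin (n + 1) → ℝ) → ℝ≥0∞, Measurable Φ →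
      ∫⁻ ω, Φ (fun i => (Fin.cons (X0 ω) (fun j => X j ω) : Fin (n + 1) → ℝ) i) ∂P =
      ∫⁻ z, Φ (fun i => mm i + ∑ k, A i k * z k) ∂gam (n + 1) := by
    intro Φ hΦ
    rw [← lintegral_map' hΦ.aemeasurable hmeas, hlaw', lintegral_map hΦ hT]
  -- the left side
  have hΦ : Measurable (fun v : Fin (n + 1) → ℝ =>
      ex (lam * (v 0 - mm 0) - lam ^ 2 * cov[X0, X0; P] / 2) * g (fun i : Fin n => v i.succ)) := by
    refine Measurable.mul (measurable_ex.comp (by fun_prop)) (hg.comp (by fun_prop))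
  have h1 := key _ hΦ
  have hΨ : Measurable (fun v : Fin (n + 1) → ℝ =>
      g (fun i : Fin n => v i.succ + lam * cov[X i, X0; P])) := hg.comp (by fun_prop)
  have h2 := key _ hΨ
  simp only [Fin.cons_zero, Fin.cons_succ] at h1 h2
  rw [hm0, h1, h2]
  have hGm : Measurable (fun z : Fin (n + 1) → ℝ =>
      g (fun i : Fin n => mm i.succ + ∑ k, A i.succ k * z k)) := hg.comp (by fun_prop)
  have h3 := hCM (n + 1) (fun k => lam * A 0 k) _ hGm
  have e1 : ∀ z : Fin (n + 1) → ℝ, lam * (mm 0 + ∑ k, A 0 k * z k - mm 0) -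
      lam ^ 2 * cov[X0, X0; P] / 2 =
      ∑ k, lam * A 0 k * z k - (∑ k, (lam * A 0 k) ^ 2) / 2 := by
    intro z
    rw [← h00, add_sub_cancel_left, Finset.mul_sum, Finset.mul_sum]
    congr 1
    · exact Finset.sum_congr rfl fun k _ => by ring
    · congr 1
      exact Finset.sum_congr rfl fun k _ => by ring
  have e2 : ∀ z : Fin (n + 1) → ℝ, (fun i : Fin n => mm i.succ + ∑ k, A i.succ k *
      (z + fun k => lam * A 0 k) k) = fun i : Fin n => mm i.succ + ∑ k, A i.succ k * z k +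
        lam * cov[X i, X0; P] := by
    intro z
    funext i
    rw [← hi0 i, Finset.mul_sum, add_assoc, ← Finset.sum_add_distrib]
    congr 1
    exact Finset.sum_congr rfl fun k _ => by rw [Pi.add_apply]; ring
  simp only [e2] at h3
  simp only [e1]
  exact h3

end Pool.Agent.H32.CG.GFD
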